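import Pool.Agent.W602.RG.Stm

/-! Project RG: the Wronskian theorem, over the constants of a derivation -/

set_option autoImplicit false

namespace Pool.Agent.W924.RG.WNZ

open Pool.Agent.W602.RG

theorem Wr_eq {L E : Type} [Field L] [Field E] [Algebra L E] (D : Derivation L E E) {m : ℕ}
    (g : Fin m → E) :
    Wr D g = (Matrix.of fun i r : Fin m => (⇑D)^[(r : ℕ)] (g i)).det := by
  rw [← Matrix.det_transpose]
  rfl

theorem aux {L E : Type} [Field L] [Field E] [Algebra L E] (D : Derivation L E E) (m : ℕ) :
    ∀ g : Fin m → E,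
    (∀ c : Fin m → E, (∀ i, D (c i) = 0) → ∑ i, c i * g i = 0 → ∀ i, c i = 0) → Wr D g ≠ 0 := by
  induction m with
  | zero =>
    intro f _
    rw [Wr_eq, Matrix.det_isEmpty]
    exact one_ne_zero
  | succ m ih =>
    intro f hf h0
    rw [Wr_eq] at h0
    obtain ⟨v, hv0, hv⟩ := Matrix.exists_vecMul_eq_zero_iff.2 h0
    have hrel : ∀ r : Fin (m + 1), ∑ i, v i * (⇑D)^[(r : ℕ)] (f i) = 0 := by
      intro r
      have := congrFun hv r
      exact this
    have hW := ih (fun i : Fin m => f i.castSucc) (by
      intro c hc hsum i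
      have h1 := hf (Fin.snoc (α := fun _ => E) c 0) (by
        intro j
        refine Fin.lastCases ?_ (fun j => ?_) j
        · rw [Fin.snoc_last, map_zero]
        · rw [Fin.snoc_castSucc]; exact hc j) (by
        rw [Fin.sum_univ_castSucc, Fin.snoc_last, zero_mul, add_zero]
        simp only [Fin.snoc_castSucc]
        exact hsum) i.castSucc
      rwa [Fin.snoc_castSucc] at h1)
    rw [Wr_eq] at hW
    have hlast : v (Fin.last m) ≠ 0 := by
      intro hl
      apply hv0
      have h1 : (fun i : Fin m => v i.castSucc) = 0 := by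
        apply Matrix.eq_zero_of_vecMul_eq_zero hW
        funext r
        have := hrel r.castSucc
        rw [Fin.sum_univ_castSucc, hl, zero_mul, add_zero] at this
        exact this
      funext i
      refine Fin.lastCases ?_ (fun i => ?_) i
      · exact hl
      · exact congrFun h1 i
    -- normalise
    set h : Fin m → E := fun i => v i.castSucc / v (Fin.last m) with hh
    have hrel2 : ∀ r : Fin (m + 1), ∑ i : Fin m, h i * (⇑D)^[(r : ℕ)] (f i.castSucc) +
        (⇑D)^[(r : ℕ)] (f (Fin.last m)) = 0 := by
      intro r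
      have := hrel r
      rw [Fin.sum_univ_castSucc] at this
      have h2 : ∑ i : Fin m, h i * (⇑D)^[(r : ℕ)] (f i.castSucc) =
          (∑ i : Fin m, v i.castSucc * (⇑D)^[(r : ℕ)] (f i.castSucc)) / v (Fin.last m) := by
        rw [Finset.sum_div]
        exact Finset.sum_congr rfl fun i _ => by simp only [hh]; ring
      rw [h2]
      field_simp
      rw [mul_zero]
      exact this
    have hDh : (fun i : Fin m => D (h i)) = 0 := by
      apply Matrix.eq_zero_of_vecMul_eq_zero hW
      funext r
      have h1 := congrArg D (hrel2 r.castSucc)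
      have h2 := hrel2 r.succ
      rw [map_zero, map_add, map_sum] at h1
      simp only [Fin.val_castSucc, Fin.val_succ, D.leibniz, smul_eq_mul,
        Function.iterate_succ_apply', Finset.sum_add_distrib] at h1 h2
      change ∑ i : Fin m, D (h i) * (⇑D)^[(r : ℕ)] (f i.castSucc) = 0
      have h3 : ∑ i : Fin m, D (h i) * (⇑D)^[(r : ℕ)] (f i.castSucc) =
          ∑ i : Fin m, (⇑D)^[(r : ℕ)] (f i.castSucc) * D (h i) :=
        Finset.sum_congr rfl fun i _ => mul_comm _ _
      rw [h3]
      linear_combination h1 - h2
    have h4 := hrel2 0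
    simp only [Fin.val_zero, Function.iterate_zero, id_eq] at h4
    have h5 := hf (Fin.snoc (α := fun _ => E) h 1) (by
        intro j
        refine Fin.lastCases ?_ (fun j => ?_) j
        · rw [Fin.snoc_last, Derivation.map_one_eq_zero]
        · rw [Fin.snoc_castSucc]; exact congrFun hDh j) (by
        rw [Fin.sum_univ_castSucc, Fin.snoc_last, one_mul]
        simp only [Fin.snoc_castSucc]
        exact h4) (Fin.last m)
    rw [Fin.snoc_last] at h5
    exact one_ne_zero h5

theorem main : Pool.Agent.W602.RG.S_WNZ := by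
  intro L E _ _ _ _ D r g hg
  exact aux D r g hg

end Pool.Agent.W924.RG.WNZ
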